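import Pool.Agent.MP_0dc0f9_ag.Curve

namespace Pool.Agent.MP_0dc0f9_ag

open MvPolynomial

section general

variable {k : Type*} [Field k] {m : ℕ} (I : Ideal (MvPolynomial (Fin m) k))

noncomputable abbrev kDiff := koszulDiff k (fun a => Ideal.Quotient.mk I (X a))

noncomputable abbrev kChains (i j : ℕ) := koszulChains m
  (fun e => (homogeneousSubmodule (Fin m) k e).map (Ideal.Quotient.mkₐ k I).toLinearMap) i j

theorem KD_apply (f : Finset (Fin m) → MvPolynomial (Fin m) k ⧸ I) (B : Finset (Fin m)) :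
    kDiff I f B = ∑ a ∈ Bᶜ, (-1) ^ (B.filter (· < a)).card *
      (Ideal.Quotient.mk I (X a) * f (insert a B)) := rfl

theorem chains_finite (i j : ℕ) : Module.Finite k (kChains I i j) := by
  rw [Module.Finite.iff_fg]
  apply Submodule.fg_pi
  intro A
  split_ifs
  · exact (homogeneousSubmodule_fg _ _ _).map _
  · exact Submodule.fg_bot

noncomputable def phi (p : Fin m → k) (Λ : (MvPolynomial (Fin m) k ⧸ I) →ₗ[k] k) :
    (Finset (Fin m) → MvPolynomial (Fin m) k ⧸ I) →ₗ[k] k :=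
  ∑ a : Fin m, p a • (Λ ∘ₗ LinearMap.proj ({a} : Finset (Fin m)))

theorem phi_apply (p : Fin m → k) (Λ : (MvPolynomial (Fin m) k ⧸ I) →ₗ[k] k)
    (f : Finset (Fin m) → MvPolynomial (Fin m) k ⧸ I) :
    phi I p Λ f = ∑ a : Fin m, p a * Λ (f {a}) := by
  simp [phi, LinearMap.sum_apply]

theorem phi_boundary [CharZero k] (p : Fin m → k) (Λ : (MvPolynomial (Fin m) k ⧸ I) →ₗ[k] k)
    (hΛ : ∀ a i, Λ (Ideal.Quotient.mk I (X a * X i)) = p a * p i)
    (f : Finset (Fin m) → MvPolynomial (Fin m) k ⧸ I) (hf : f ∈ kChains I (1 + 1) 3) :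
    phi I p Λ (kDiff I f) = 0 := by
  have lin : ∀ l ∈ homogeneousSubmodule (Fin m) k 1, ∀ a,
      Λ (Ideal.Quotient.mk I (X a) * Ideal.Quotient.mk I l) = p a * aeval p l := by
    intro l hl a
    rw [homogeneousSubmodule_one_eq_span_X] at hl
    induction hl using Submodule.span_induction with
    | mem x hx =>
      obtain ⟨i, rfl⟩ := hx
      rw [← map_mul, hΛ, aeval_X]
    | zero => simp
    | add x y _ _ hx hy => rw [map_add, mul_add, map_add, hx, hy, map_add, mul_add]
    | smul c x _ hx =>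
      have : Ideal.Quotient.mk I (c • x) = c • Ideal.Quotient.mk I x := rfl
      rw [this, mul_smul_comm, map_smul, hx, map_smul, smul_eq_mul, smul_eq_mul]
      ring
  have ex : ∀ A : Finset (Fin m), ∃ t : k, A.card = 2 → ∀ a,
      Λ (Ideal.Quotient.mk I (X a) * f A) = p a * t := by
    intro A
    by_cases hA : A.card = 2
    · have := hf A (Set.mem_univ _)
      beta_reduce at this
      rw [if_pos ⟨hA, by norm_num⟩] at this
      obtain ⟨l, hl, hl'⟩ := this
      refine ⟨aeval p l, fun _ a => ?_⟩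
      rw [← hl']
      exact lin l hl a
    · exact ⟨0, fun h => absurd h hA⟩
  choose t ht using ex
  let T : Fin m → Fin m → k := fun b a =>
    if a = b then 0 else (if b < a then -1 else 1) * (p a * p b * t {a, b})
  have anti : ∀ a b, T a b = - T b a := by
    intro a b
    simp only [T]
    rcases lt_trichotomy a b with h | h | h
    · rw [if_neg h.ne', if_neg h.ne, if_pos h, if_neg h.not_gt, Finset.pair_comm]
      ring
    · simp [h]
    · rw [if_neg h.ne, if_neg h.ne', if_neg h.not_gt, if_pos h, Finset.pair_comm]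
      ring
  have e : phi I p Λ (kDiff I f) = ∑ b, ∑ a, T b a := by
    rw [phi_apply]
    refine Finset.sum_congr rfl fun b _ => ?_
    rw [KD_apply, map_sum, Finset.mul_sum,
      ← Finset.sum_compl_add_sum ({b} : Finset (Fin m)) (T b)]
    have : ∑ a ∈ ({b} : Finset (Fin m)), T b a = 0 := by simp [T]
    rw [this, add_zero]
    refine Finset.sum_congr rfl fun a ha => ?_
    have hab : a ≠ b := by simpa using ha
    have h2 := ht {a, b} (Finset.card_pair hab) a
    simp only [T, if_neg hab, Finset.filter_singleton]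
    split_ifs with h
    · have hn : ∀ y : MvPolynomial (Fin m) k ⧸ I, Λ (-1 * y) = - Λ y := fun y => by
        rw [show -1 * y = (-1 : k) • y by rw [neg_one_smul]; ring, map_smul]
        simp
      rw [Finset.card_singleton, pow_one, hn, h2]
      ring
    · simp only [Finset.card_empty, pow_zero, one_mul, h2]
      ring
  have e2 : ∑ b, ∑ a, T b a = - ∑ b, ∑ a, T b a := by
    conv_lhs => rw [Finset.sum_comm]
    rw [← Finset.sum_neg_distrib]
    refine Finset.sum_congr rfl fun b _ => ?_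
    rw [← Finset.sum_neg_distrib]
    exact Finset.sum_congr rfl fun a _ => anti a b
  rw [e]
  exact self_eq_neg.1 e2

theorem single_cycle (a i j : Fin m) (h : X a * (X i * X j) ∈ I) :
    (Pi.single ({a} : Finset (Fin m)) (Ideal.Quotient.mk I (X i * X j)) :
      Finset (Fin m) → MvPolynomial (Fin m) k ⧸ I) ∈
      kChains I 1 3 ⊓ LinearMap.ker (kDiff I) := by
  refine ⟨fun A _ => ?_, ?_⟩
  · by_cases hA : A = {a}
    · subst hA
      beta_reduce
      rw [if_pos ⟨Finset.card_singleton _, by norm_num⟩, Pi.single_eq_same]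
      exact ⟨X i * X j, (isHomogeneous_X k i).mul (isHomogeneous_X k j), rfl⟩
    · rw [Pi.single_eq_of_ne hA]
      exact Submodule.zero_mem _
  · change kDiff I _ = 0
    ext B
    rw [KD_apply]
    refine Finset.sum_eq_zero fun b hb => ?_
    by_cases hA : insert b B = {a}
    · have hba : b = a := by
        have : b ∈ ({a} : Finset (Fin m)) := hA ▸ Finset.mem_insert_self b B
        simpa using this
      rw [hA, Pi.single_eq_same, ← map_mul, hba, Ideal.Quotient.eq_zero_iff_mem.2 h, mul_zero]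
    · rw [Pi.single_eq_of_ne hA, mul_zero, mul_zero]

theorem phi_single (p : Fin m → k) (Λ : (MvPolynomial (Fin m) k ⧸ I) →ₗ[k] k)
    (hΛ : ∀ a i, Λ (Ideal.Quotient.mk I (X a * X i)) = p a * p i) (a i j : Fin m) :
    phi I p Λ (Pi.single ({a} : Finset (Fin m)) (Ideal.Quotient.mk I (X i * X j))) =
      p a * (p i * p j) := by
  rw [phi_apply, Finset.sum_eq_single a]
  · rw [Pi.single_eq_same, hΛ]
  · intro b _ hb
    rw [Pi.single_eq_of_ne (by simpa using hb), map_zero, mul_zero]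
  · simp

end general

variable (k : Type*) [Field k]

noncomputable def exI : Ideal (MvPolynomial (Fin (4 + 1)) k) :=
  vanishingIdeal k (⋃ v, (exL k v : Set (Fin (4 + 1) → k)))

variable {k}

noncomputable def evalOn (v : Fin 6) (x : Fin 5 → k) (hx : eqs v x) :
    (MvPolynomial (Fin (4 + 1)) k ⧸ exI k) →ₗ[k] k :=
  (Ideal.Quotient.liftₐ (exI k) (aeval x)
    (fun p hp => hp x (Set.mem_iUnion.2 ⟨v, (mem_exL v x).2 hx⟩))).toLinearMap

theorem evalOn_mk (v : Fin 6) (x : Fin 5 → k) (hx : eqs v x) (a i : Fin 5) :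
    evalOn v x hx (Ideal.Quotient.mk (exI k) (X a * X i)) = x a * x i := by
  simp [evalOn]

noncomputable def lam1 : (MvPolynomial (Fin (4 + 1)) k ⧸ exI k) →ₗ[k] k :=
  evalOn 2 ![1, 1, 0, 0, 0] (by simp [eqs]) + evalOn 1 ![1, 0, 1, 0, 0] (by simp [eqs])
    + evalOn 0 ![0, 1, 1, 0, 0] (by simp [eqs]) - evalOn 1 ![1, 0, 0, 0, 0] (by simp [eqs])
    - evalOn 0 ![0, 1, 0, 0, 0] (by simp [eqs]) - evalOn 0 ![0, 0, 1, 0, 0] (by simp [eqs])

theorem lam1_spec (a i : Fin 5) : lam1 (Ideal.Quotient.mk (exI k) (X a * X i)) =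
    (![1, 1, 1, 0, 0] : Fin 5 → k) a * (![1, 1, 1, 0, 0] : Fin 5 → k) i := by
  simp only [lam1, LinearMap.add_apply, LinearMap.sub_apply, evalOn_mk]
  fin_cases a <;> fin_cases i <;> simp

noncomputable def lam2 : (MvPolynomial (Fin (4 + 1)) k ⧸ exI k) →ₗ[k] k :=
  evalOn 2 ![2, 1, 0, 0, 0] (by simp [eqs]) + evalOn 1 ![2, 0, 1, 0, 0] (by simp [eqs])
    + evalOn 0 ![0, 1, 1, 0, 0] (by simp [eqs]) - evalOn 1 ![2, 0, 0, 0, 0] (by simp [eqs])
    - evalOn 0 ![0, 1, 0, 0, 0] (by simp [eqs]) - evalOn 0 ![0, 0, 1, 0, 0] (by simp [eqs])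
    + evalOn 3 ![1, 0, 1, 1, 0] (by simp [eqs]) + evalOn 4 ![1, 1, 0, 1, 0] (by simp [eqs])
    - evalOn 3 ![1, 0, 1, 0, 0] (by simp [eqs]) - evalOn 4 ![1, 1, 0, 0, 0] (by simp [eqs])
    - evalOn 3 ![0, 0, 0, 1, 0] (by simp [eqs])

theorem lam2_spec (a i : Fin 5) : lam2 (Ideal.Quotient.mk (exI k) (X a * X i)) =
    (![2, 1, 1, 1, 0] : Fin 5 → k) a * (![2, 1, 1, 1, 0] : Fin 5 → k) i := by
  simp only [lam2, LinearMap.add_apply, LinearMap.sub_apply, evalOn_mk]
  fin_cases a <;> fin_cases i <;> simp <;> norm_num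

theorem cubic1 : X 0 * (X 1 * X 2) ∈ exI k := by
  intro x hx
  obtain ⟨v, hv⟩ := Set.mem_iUnion.1 hx
  have := (mem_exL v x).1 hv
  fin_cases v <;> simp only [eqs, Fin.reduceFinMk, Matrix.cons_val] at this <;> simp [this.1]

theorem cubic2 : X 3 * (X 1 * X 2) ∈ exI k := by
  intro x hx
  obtain ⟨v, hv⟩ := Set.mem_iUnion.1 hx
  have := (mem_exL v x).1 hv
  fin_cases v <;> simp only [eqs, Fin.reduceFinMk, Matrix.cons_val] at this
  · simp [this.2.1]
  all_goals simp [this.1]

theorem two_le_betti [CharZero k] : 2 ≤ gradedBetti (exI k) 1 3 := by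
  let Z := kChains (exI k) 1 3 ⊓ LinearMap.ker (kDiff (exI k))
  let B := ((kChains (exI k) (1 + 1) 3).map (kDiff (exI k))).submoduleOf Z
  have := chains_finite (exI k) 1 3
  have : Module.Finite k Z := Submodule.finiteDimensional_of_le inf_le_left
  let Ψ : Z →ₗ[k] k × k :=
    ((phi (exI k) ![1, 1, 1, 0, 0] lam1).prod (phi (exI k) ![2, 1, 1, 1, 0] lam2)) ∘ₗ Z.subtype
  have hB : B ≤ LinearMap.ker Ψ := by
    rintro ⟨x, hx⟩ ⟨f, hf, rfl⟩
    exact Prod.ext (phi_boundary _ _ _ lam1_spec f hf) (phi_boundary _ _ _ lam2_spec f hf)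
  have hs : Function.Surjective (B.liftQ Ψ hB) := by
    rintro ⟨s, t⟩
    refine ⟨B.mkQ (s • ⟨_, single_cycle (exI k) 0 1 2 cubic1⟩ +
      (t - 2 * s) • ⟨_, single_cycle (exI k) 3 1 2 cubic2⟩), ?_⟩
    rw [Submodule.mkQ_apply, Submodule.liftQ_apply, map_add, map_smul, map_smul]
    have v1 : Ψ ⟨_, single_cycle (exI k) 0 1 2 cubic1⟩ = (1, 2) :=
      Prod.ext ((phi_single _ _ _ lam1_spec 0 1 2).trans (by simp))
        ((phi_single _ _ _ lam2_spec 0 1 2).trans (by simp))
    have v2 : Ψ ⟨_, single_cycle (exI k) 3 1 2 cubic2⟩ = (0, 1) :=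
      Prod.ext ((phi_single _ _ _ lam1_spec 3 1 2).trans (by simp))
        ((phi_single _ _ _ lam2_spec 3 1 2).trans (by simp))
    rw [v1, v2]
    ext <;> simp <;> ring
  have h := LinearMap.finrank_le_finrank_of_surjective hs
  have h2 : Module.finrank k (k × k) = 2 := by simp
  rw [h2] at h
  exact h

end Pool.Agent.MP_0dc0f9_ag
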