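import Pool.Agent.MP_0dc0f9_ag.Graph

namespace Pool.Agent.MP_0dc0f9_ag

variable (k : Type*) [Field k]

def ptA : Fin 6 → Fin 5 → k :=
  ![![0, 1, 0, 0, 0], ![1, 0, 0, 0, 0], ![1, 0, 0, 0, 0], ![1, 0, 1, 0, 0], ![1, 1, 0, 0, 0],
    ![1, 0, 1, 1, 0]]

def ptB : Fin 6 → Fin 5 → k :=
  ![![0, 0, 1, 0, 0], ![0, 0, 1, 0, 0], ![0, 1, 0, 0, 0], ![0, 0, 0, 1, 0], ![0, 0, 0, 1, 0],
    ![0, 0, 0, 0, 1]]

def exL (v : Fin 6) : Submodule k (Fin (4 + 1) → k) := Submodule.span k {ptA k v, ptB k v}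

variable {k}

def eqs (v : Fin 6) (x : Fin 5 → k) : Prop :=
  ![x 0 = 0 ∧ x 3 = 0 ∧ x 4 = 0, x 1 = 0 ∧ x 3 = 0 ∧ x 4 = 0, x 2 = 0 ∧ x 3 = 0 ∧ x 4 = 0,
    x 1 = 0 ∧ x 2 = x 0 ∧ x 4 = 0, x 2 = 0 ∧ x 1 = x 0 ∧ x 4 = 0,
    x 1 = 0 ∧ x 2 = x 0 ∧ x 3 = x 0] v

theorem mem_exL (v : Fin 6) (x : Fin 5 → k) : x ∈ exL k v ↔ eqs v x := by
  rw [exL, Submodule.mem_span_pair]
  constructor
  · rintro ⟨a, b, rfl⟩
    fin_cases v <;> simp [eqs, ptA, ptB]
  · intro h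
    fin_cases v <;> simp only [eqs, Fin.reduceFinMk, Matrix.cons_val] at h <;>
      obtain ⟨h1, h2, h3⟩ := h
    · exact ⟨x 1, x 2, by ext i; fin_cases i <;> simp [ptA, ptB, h1, h2, h3]⟩
    · exact ⟨x 0, x 2, by ext i; fin_cases i <;> simp [ptA, ptB, h1, h2, h3]⟩
    · exact ⟨x 0, x 1, by ext i; fin_cases i <;> simp [ptA, ptB, h1, h2, h3]⟩
    · exact ⟨x 0, x 3, by ext i; fin_cases i <;> simp [ptA, ptB, h1, h2, h3]⟩
    · exact ⟨x 0, x 3, by ext i; fin_cases i <;> simp [ptA, ptB, h1, h2, h3]⟩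
    · exact ⟨x 0, x 4, by ext i; fin_cases i <;> simp [ptA, ptB, h1, h2, h3]⟩

theorem vec_eq_zero {x : Fin 5 → k} (h0 : x 0 = 0) (h1 : x 1 = 0) (h2 : x 2 = 0) (h3 : x 3 = 0)
    (h4 : x 4 = 0) : x = 0 := by
  ext i
  fin_cases i <;> simp [h0, h1, h2, h3, h4]

theorem exL_line (v : Fin 6) : Module.finrank k (exL k v) = 2 := by
  have hli : LinearIndependent k ![ptA k v, ptB k v] := by
    rw [LinearIndependent.pair_iff]
    intro s t h
    have h0 := congrFun h 0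
    have h1 := congrFun h 1
    have h2 := congrFun h 2
    have h3 := congrFun h 3
    have h4 := congrFun h 4
    fin_cases v <;> simp [ptA, ptB] at h0 h1 h2 h3 h4 <;> simp_all
  have := finrank_span_eq_card hli
  rw [Matrix.range_cons, Matrix.range_cons, Matrix.range_empty, Set.union_empty,
    Fintype.card_fin] at this
  exact this

theorem exL_nonadj (u v : Fin 6) (huv : u ≠ v) (h : ¬ exG.Adj u v) : exL k u ⊓ exL k v = ⊥ := by
  rw [eq_bot_iff]
  intro x hx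
  rw [Submodule.mem_inf, mem_exL, mem_exL] at hx
  rw [Submodule.mem_bot]
  obtain ⟨hu, hv⟩ := hx
  fin_cases u <;> fin_cases v <;>
  first
  | exact absurd rfl huv
  | exact absurd (by decide) h
  | (simp only [eqs, Fin.reduceFinMk, Matrix.cons_val] at hu hv
     obtain ⟨h1, h2, h3⟩ := hu
     obtain ⟨g1, g2, g3⟩ := hv
     apply vec_eq_zero <;> simp_all)

def meetPt (u v : Fin 6) : Fin 5 → k :=
  if u.val + v.val = 1 then ![0, 0, 1, 0, 0]
  else if u.val + v.val = 2 then ![0, 1, 0, 0, 0]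
  else if u.val + v.val = 3 then ![1, 0, 0, 0, 0]
  else if u.val + v.val = 4 then ![1, 0, 1, 0, 0]
  else if u.val + v.val = 6 then ![1, 1, 0, 0, 0]
  else if u.val + v.val = 7 then ![0, 0, 0, 1, 0]
  else ![1, 0, 1, 1, 0]

theorem exL_adj (u v : Fin 6) (h : exG.Adj u v) : exL k u ⊓ exL k v ≠ ⊥ := by
  rw [Submodule.ne_bot_iff]
  refine ⟨meetPt u v, ?_, ?_⟩
  · rw [Submodule.mem_inf, mem_exL, mem_exL]
    fin_cases u <;> fin_cases v <;>
    first
    | exact absurd h (by decide)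
    | simp [eqs, meetPt]
  · fin_cases u <;> fin_cases v <;>
    first
    | exact absurd h (by decide)
    | simp [meetPt]

theorem exL_triple (u v w : Fin 6) (huv : u ≠ v) (huw : u ≠ w) (hvw : v ≠ w) :
    exL k u ⊓ exL k v ⊓ exL k w = ⊥ := by
  by_cases h1 : exG.Adj u v
  swap
  · rw [exL_nonadj u v huv h1, bot_inf_eq]
  by_cases h2 : exG.Adj v w
  swap
  · rw [inf_assoc, exL_nonadj v w hvw h2, inf_bot_eq]
  by_cases h3 : exG.Adj u w
  swap
  · rw [inf_right_comm, exL_nonadj u w huw h3, bot_inf_eq]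
  have key : ∀ a b c : Fin 6, exG.Adj a b → exG.Adj b c → exG.Adj a c →
      ∀ x : Fin 6, (x = 0 ∨ x = 1 ∨ x = 2) ↔ (x = a ∨ x = b ∨ x = c) := by decide
  rw [eq_bot_iff]
  intro x hx
  rw [Submodule.mem_inf, Submodule.mem_inf] at hx
  have hm : ∀ y : Fin 6, (y = 0 ∨ y = 1 ∨ y = 2) → x ∈ exL k y := by
    intro y hy
    rcases (key u v w h1 h2 h3 y).1 hy with rfl | rfl | rfl
    · exact hx.1.1
    · exact hx.1.2
    · exact hx.2
  have a0 := (mem_exL _ _).1 (hm 0 (by simp))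
  have a1 := (mem_exL _ _).1 (hm 1 (by simp))
  have a2 := (mem_exL _ _).1 (hm 2 (by simp))
  simp only [eqs, Matrix.cons_val] at a0 a1 a2
  exact vec_eq_zero a0.1 a1.1 a2.1 a0.2.1 a0.2.2

theorem exL_spans : ⨆ v, exL k v = ⊤ := by
  rw [eq_top_iff]
  intro x _
  have hx : x = ![x 0, x 1, 0, 0, 0] + ![0, 0, x 2, 0, 0] + ![0, 0, 0, x 3, 0] +
      ![0, 0, 0, 0, x 4] := by
    ext i
    fin_cases i <;> simp
  rw [hx]
  refine add_mem (add_mem (add_mem ?_ ?_) ?_) ?_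
  · exact Submodule.mem_iSup_of_mem 2 ((mem_exL _ _).2 (by simp [eqs]))
  · exact Submodule.mem_iSup_of_mem 0 ((mem_exL _ _).2 (by simp [eqs]))
  · exact Submodule.mem_iSup_of_mem 3 ((mem_exL _ _).2 (by simp [eqs]))
  · exact Submodule.mem_iSup_of_mem 5 ((mem_exL _ _).2 (by simp [eqs]))

theorem exL_injective : Function.Injective (exL k) := by
  intro u v h
  by_contra huv
  obtain ⟨w, hwu, hwv, hw⟩ : ∃ w, u ≠ w ∧ v ≠ w ∧ exG.Adj u w := by
    have : ∀ u v : Fin 6, u ≠ v → (∃ w, u ≠ w ∧ v ≠ w ∧ exG.Adj u w) ∨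
        (∃ w, u ≠ w ∧ v ≠ w ∧ exG.Adj v w) := by decide
    rcases this u v huv with h' | ⟨w, a, b, c⟩
    · exact h'
    · have t := exL_triple (k := k) u v w huv a b
      rw [h, inf_idem] at t
      exact absurd t (exL_adj v w c)
  have t := exL_triple (k := k) u v w huv hwu hwv
  rw [← h, inf_idem] at t
  exact absurd t (exL_adj u w hw)

theorem exL_graphCurve : IsGraphCurve exG (exL k) where
  line := exL_line
  distinct := exL_injective
  meet_iff u v huv := ⟨fun h => by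
    by_contra h'
    exact h (exL_nonadj u v huv h'), exL_adj u v⟩
  no_triple := exL_triple
  spans := exL_spans

end Pool.Agent.MP_0dc0f9_ag
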