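import Mathlib

namespace Pool.Agent.MP_0dc0f9_ag

open MvPolynomial

/-- `f` is a crossing-free drawing of `G` in the plane with straight edges. -/
def IsPlaneDrawing {V : Type*} (G : SimpleGraph V) (f : V → ℝ × ℝ) : Prop :=
  Function.Injective f ∧
  (∀ u v w, G.Adj u v → f w ∉ openSegment ℝ (f u) (f v)) ∧
  (∀ u v u' v', G.Adj u v → G.Adj u' v' → s(u, v) ≠ s(u', v') →
    Disjoint (openSegment ℝ (f u) (f v)) (openSegment ℝ (f u') (f v')))

/-- The lines `ℓ v` of projective `n`-space (planes in `k^(n+1)`) form a graph curve of `G`. -/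
structure IsGraphCurve {k V : Type*} [Field k] {n : ℕ} (G : SimpleGraph V)
    (ℓ : V → Submodule k (Fin (n + 1) → k)) : Prop where
  line : ∀ v, Module.finrank k (ℓ v) = 2
  distinct : Function.Injective ℓ
  meet_iff : ∀ u v, u ≠ v → (ℓ u ⊓ ℓ v ≠ ⊥ ↔ G.Adj u v)
  no_triple : ∀ u v w, u ≠ v → u ≠ w → v ≠ w → ℓ u ⊓ ℓ v ⊓ ℓ w = ⊥
  spans : ⨆ v, ℓ v = ⊤

/-- The Koszul differential of `x_0, ..., x_{m-1}` on `R`; a chain `∑ e_A ⊗ f A` is the
function `f`, and `d (e_A ⊗ r) = ∑_{a ∈ A} (-1)^{#{b ∈ A, b < a}} e_{A - a} ⊗ x_a r`. -/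
def koszulDiff (k : Type*) {R : Type*} [Field k] [CommRing R] [Algebra k R] {m : ℕ}
    (x : Fin m → R) : (Finset (Fin m) → R) →ₗ[k] (Finset (Fin m) → R) where
  toFun f B := ∑ a ∈ Bᶜ, (-1) ^ (B.filter (· < a)).card * (x a * f (insert a B))
  map_add' f g := by
    ext B
    simp only [Pi.add_apply, mul_add, Finset.sum_add_distrib]
  map_smul' c f := by
    ext B
    simp only [Pi.smul_apply, mul_smul_comm, RingHom.id_apply, Finset.smul_sum]

/-- The Koszul chains of homological degree `i` and internal degree `j`: `Λ^i V ⊗ R_{j-i}`. -/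
def koszulChains {k R : Type*} [Field k] [CommRing R] [Algebra k R] (m : ℕ)
    (piece : ℕ → Submodule k R) (i j : ℕ) : Submodule k (Finset (Fin m) → R) :=
  Submodule.pi Set.univ fun A => if A.card = i ∧ i ≤ j then piece (j - i) else ⊥

/-- The dimension of the Koszul homology in degree `(i, j)`: cycles modulo boundaries. -/
noncomputable def koszulHomologyDim {k R : Type*} [Field k] [CommRing R] [Algebra k R] {m : ℕ}
    (x : Fin m → R) (piece : ℕ → Submodule k R) (i j : ℕ) : ℕ :=
  let cycles := koszulChains m piece i j ⊓ LinearMap.ker (koszulDiff k x)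
  let boundaries := (koszulChains m piece (i + 1) j).map (koszulDiff k x)
  Module.finrank k (cycles ⧸ boundaries.submoduleOf cycles)

/-- `b_{i,j}(S/I) = dim Tor_i^S(S/I,k)_j`, computed as Koszul homology. -/
noncomputable def gradedBetti {k : Type*} [Field k] {m : ℕ}
    (I : Ideal (MvPolynomial (Fin m) k)) (i j : ℕ) : ℕ :=
  koszulHomologyDim (fun a => Ideal.Quotient.mk I (X a))
    (fun e => (homogeneousSubmodule (Fin m) k e).map (Ideal.Quotient.mkₐ k I).toLinearMap) i j

end Pool.Agent.MP_0dc0f9_ag
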