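import Pool.Agent.MP_0dc0f9_ag.Defs

set_option linter.constructorNameAsVariable false

namespace Pool.Agent.MP_0dc0f9_ag

open SimpleGraph

def adjB (u v : Fin 6) : Bool :=
  (u, v) ∈ [((0 : Fin 6), (1 : Fin 6)), (1, 0), (0, 2), (2, 0), (1, 2), (2, 1), (1, 3), (3, 1),
    (2, 4), (4, 2), (3, 4), (4, 3), (3, 5), (5, 3)]

def exG : SimpleGraph (Fin 6) where
  Adj u v := adjB u v = true
  symm := ⟨by decide⟩
  loopless := ⟨by decide⟩

instance : DecidableRel exG.Adj := fun u v => inferInstanceAs (Decidable (adjB u v = true))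

theorem exG_connected : exG.Connected := by decide

theorem exG_degree (v : Fin 6) : (exG.neighborSet v).ncard ≤ 3 := by
  have : ∀ v : Fin 6, exG.degree v ≤ 3 := by decide
  rw [Set.ncard_eq_toFinset_card', Set.toFinset_card, card_neighborSet_eq_degree]
  exact this v

theorem exG_edges : exG.edgeSet.ncard = 7 := by
  have : exG.edgeFinset.card = 7 := by decide
  rw [← this, Set.ncard_eq_toFinset_card']
  rfl

theorem exG_sub (H : exG.Subgraph) (hH : H.Connected) :
    2 * ((H.edgeSet.ncard : ℤ) - H.verts.ncard + 1) + 1 ≤ H.verts.ncard := by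
  classical
  have key : ∀ s : Finset (Fin 6), s.Nonempty →
      2 * (exG.edgeFinset.filter (fun e => ∀ v : Fin 6, v ∈ e → v ∈ s)).card + 3 ≤ 3 * s.card := by
    decide
  have h1 := key H.verts.toFinset (by simpa using hH.nonempty)
  have h2 : H.edgeSet.ncard ≤
      (exG.edgeFinset.filter (fun e => ∀ v : Fin 6, v ∈ e → v ∈ H.verts.toFinset)).card := by
    rw [← Set.ncard_coe_finset]
    apply Set.ncard_le_ncard _ (Finset.finite_toSet _)
    intro e he
    simp only [Finset.coe_filter, mem_edgeFinset, Set.mem_toFinset, Set.mem_ofPred_eq]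
    exact ⟨H.edgeSet_subset he, fun v hv => H.mem_verts_of_mem_edge he hv⟩
  have h3 : H.verts.ncard = H.verts.toFinset.card := Set.ncard_eq_toFinset_card' _
  rw [h3]
  omega

theorem exG_cycle : ∃ (u : Fin 6) (w : exG.Walk u u), w.IsCycle ∧ w.length = 3 :=
  is3Clique_iff_exists_cycle_length_three.1 ⟨{0, 1, 2}, by decide⟩

theorem exG_not_acyclic : ¬ exG.IsAcyclic := by
  obtain ⟨u, w, hw, -⟩ := exG_cycle
  exact fun h => h w hw

theorem exG_girth : exG.girth = 3 := by
  obtain ⟨u, w, hw, hl⟩ := exG_cycle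
  exact le_antisymm (hl ▸ girth_le_length hw) (three_le_girth exG_not_acyclic)

theorem exG_tri (H : exG.Subgraph) (e : cycleGraph 3 ≃g H.coe) :
    H.verts = {0, 1, 2} ∧ ∀ u v, H.Adj u v ↔ (u ∈ H.verts ∧ v ∈ H.verts ∧ u ≠ v) := by
  have hadj : ∀ i j : Fin 3, i ≠ j → H.Adj (e i) (e j) := by
    intro i j hij
    have : (cycleGraph 3).Adj i j := by rw [cycleGraph_three_eq_top]; exact hij
    exact (e.map_rel_iff.2 this)
  have hfull : ∀ u v, H.Adj u v ↔ (u ∈ H.verts ∧ v ∈ H.verts ∧ u ≠ v) := by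
    intro u v
    refine ⟨fun h => ⟨H.edge_vert h, H.edge_vert h.symm, h.ne⟩, fun ⟨hu, hv, huv⟩ => ?_⟩
    obtain ⟨i, hi⟩ := e.surjective ⟨u, hu⟩
    obtain ⟨j, hj⟩ := e.surjective ⟨v, hv⟩
    have := hadj i j (by
      rintro rfl
      exact huv (congrArg Subtype.val (hi.symm.trans hj)))
    rwa [hi, hj] at this
  refine ⟨?_, hfull⟩
  have key : ∀ a b c : Fin 6, exG.Adj a b → exG.Adj a c → exG.Adj b c →
      ∀ x : Fin 6, (x = a ∨ x = b ∨ x = c) ↔ (x = 0 ∨ x = 1 ∨ x = 2) := by decide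
  have k := key _ _ _ (H.adj_sub (hadj 0 1 (by decide))) (H.adj_sub (hadj 0 2 (by decide)))
    (H.adj_sub (hadj 1 2 (by decide)))
  ext x
  simp only [Set.mem_insert_iff, Set.mem_singleton_iff]
  rw [← k x]
  constructor
  · intro hx
    obtain ⟨i, hi⟩ := e.surjective ⟨x, hx⟩
    have hi' : x = (e i : Fin 6) := (congrArg Subtype.val hi).symm
    fin_cases i
    · exact Or.inl hi'
    · exact Or.inr (Or.inl hi')
    · exact Or.inr (Or.inr hi')
  · rintro (rfl | rfl | rfl) <;> exact Subtype.prop _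

theorem exG_copyCount : exG.copyCount (cycleGraph 3) ≤ 1 := by
  classical
  rw [copyCount, Finset.card_le_one]
  intro A hA B hB
  simp only [Finset.mem_filter, Finset.mem_univ, true_and] at hA hB
  obtain ⟨eA⟩ := hA
  obtain ⟨eB⟩ := hB
  obtain ⟨a1, a2⟩ := exG_tri A eA
  obtain ⟨b1, b2⟩ := exG_tri B eB
  refine Subgraph.ext (a1.trans b1.symm) ?_
  ext u v
  rw [a2, b2, a1, b1]

def exPos : Fin 6 → ℝ × ℝ := ![(1, 4), (0, 2), (2, 2), (0, 0), (2, 0), (-2, 0)]

theorem mem_openSegment_prod {p q x : ℝ × ℝ} (h : x ∈ openSegment ℝ p q) :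
    ∃ t : ℝ, 0 < t ∧ t < 1 ∧ x.1 = (1 - t) * p.1 + t * q.1 ∧ x.2 = (1 - t) * p.2 + t * q.2 := by
  obtain ⟨a, b, ha, hb, hab, rfl⟩ := h
  have : a = 1 - b := by linarith
  subst this
  exact ⟨b, hb, by linarith, by simp, by simp⟩

theorem exG_adj_cases {u v : Fin 6} (h : exG.Adj u v) :
    s(u, v) = s(0, 1) ∨ s(u, v) = s(0, 2) ∨ s(u, v) = s(1, 2) ∨ s(u, v) = s(1, 3) ∨
      s(u, v) = s(2, 4) ∨ s(u, v) = s(3, 4) ∨ s(u, v) = s(3, 5) := by
  revert u v
  decide

theorem openSegment_sym2 {u v u' v' : Fin 6} (h : s(u, v) = s(u', v')) :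
    openSegment ℝ (exPos u) (exPos v) = openSegment ℝ (exPos u') (exPos v') := by
  rcases Sym2.eq_iff.1 h with ⟨rfl, rfl⟩ | ⟨rfl, rfl⟩
  · rfl
  · exact openSegment_symm _ _ _

theorem exG_plane : IsPlaneDrawing exG exPos := by
  refine ⟨?_, ?_, ?_⟩
  · intro u v h
    fin_cases u <;> fin_cases v <;> simp [exPos] at h ⊢ <;> norm_num at h
  · intro u v w huv hw
    rcases exG_adj_cases huv with h | h | h | h | h | h | h <;>
    · rw [openSegment_sym2 h] at hw
      obtain ⟨t, h0, h1, hx, hy⟩ := mem_openSegment_prod hw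
      fin_cases w <;> simp [exPos] at hx hy <;> linarith
  · intro u v u' v' huv huv' hne
    rw [Set.disjoint_left]
    intro x hx hx'
    rcases exG_adj_cases huv with h | h | h | h | h | h | h <;>
    rcases exG_adj_cases huv' with h' | h' | h' | h' | h' | h' | h' <;>
    first
    | exact hne (h.trans h'.symm)
    | (rw [openSegment_sym2 h] at hx
       rw [openSegment_sym2 h'] at hx'
       obtain ⟨t, h0, h1, ha, hb⟩ := mem_openSegment_prod hx
       obtain ⟨r, g0, g1, ga, gb⟩ := mem_openSegment_prod hx'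
       simp only [exPos, Matrix.cons_val] at ha hb ga gb
       linarith)

end Pool.Agent.MP_0dc0f9_ag
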